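import Pool.Agent.H87.D3.Targets

/-!
# Row ZMU of the board d3h_modules: zoom and the energy measure
-/

set_option autoImplicit false

namespace Pool.Agent.H40.D3

open MeasureTheory Metric Set Filter Topology Pool.Agent.H87.SN Pool.Agent.H87.SH Pool.Agent.H87.AX
open Pool.Agent.H87.D3
open scoped ContDiff RealInnerProductSpace ENNReal

noncomputable section

/-- the zoom as a homeomorphism -/
def zh (c : V) (r : ℝ) (hr : r ≠ 0) (g : V ≃ₗᵢ[ℝ] V) : V ≃ₜ V :=
  (g.toHomeomorph.trans (Homeomorph.smulOfNeZero r hr)).trans (Homeomorph.addLeft c)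

theorem zh_apply (c : V) (r : ℝ) (hr : r ≠ 0) (g : V ≃ₗᵢ[ℝ] V) (y : V) :
    zh c r hr g y = zm c r g y := rfl

theorem zm_emb (c : V) {r : ℝ} (hr : r ≠ 0) (g : V ≃ₗᵢ[ℝ] V) : MeasurableEmbedding (zm c r g) :=
  (zh c r hr g).measurableEmbedding

theorem zm_sub (c : V) (r : ℝ) (g : V ≃ₗᵢ[ℝ] V) (a b : V) :
    zm c r g a - zm c r g b = r • g (a - b) := by
  unfold zm
  rw [map_sub, smul_sub]
  abel

theorem dist_zm (c : V) {r : ℝ} (hr : 0 < r) (g : V ≃ₗᵢ[ℝ] V) (a b : V) :
    dist (zm c r g a) (zm c r g b) = r * dist a b := by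
  rw [dist_eq_norm, zm_sub, norm_smul, g.norm_map, dist_eq_norm, Real.norm_of_nonneg hr.le]

theorem image_ball (c : V) {r : ℝ} (hr : 0 < r) (g : V ≃ₗᵢ[ℝ] V) (y : V) (s : ℝ) :
    zm c r g '' ball y s = ball (zm c r g y) (r * s) := by
  ext x
  constructor
  · rintro ⟨w, hw, rfl⟩
    rw [mem_ball] at hw ⊢
    rw [dist_zm c hr g]
    exact mul_lt_mul_of_pos_left hw hr
  · intro hx
    obtain ⟨w, rfl⟩ := (zh c r hr.ne' g).surjective x
    rw [zh_apply] at hx ⊢
    refine ⟨w, ?_, rfl⟩
    rw [mem_ball, dist_zm c hr g] at hx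
    exact mem_ball.2 (lt_of_mul_lt_mul_left hx hr.le)

theorem map_zm (c : V) {r : ℝ} (hr : 0 < r) (g : V ≃ₗᵢ[ℝ] V) :
    Measure.map (zm c r g) volume = ENNReal.ofReal ((r ^ 3)⁻¹) • (volume : Measure V) := by
  have h1 : zm c r g = (fun x => c + x) ∘ ((fun x : V => r • x) ∘ g) := rfl
  have m1 : Measurable (fun x : V => c + x) := measurable_const_add c
  have m2 : Measurable (fun x : V => r • x) := measurable_const_smul r
  have m3 : Measurable (g : V → V) := g.continuous.measurable
  have h2 : Measure.map (fun x : V => r • x) (volume : Measure V) =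
      ENNReal.ofReal ((r ^ 3)⁻¹) • (volume : Measure V) := by
    have h3 := Measure.map_addHaar_smul (volume : Measure V) hr.ne'
    rw [finrank_euclideanSpace_fin, abs_of_pos (by positivity)] at h3
    exact h3
  rw [h1, ← Measure.map_map m1 (m2.comp m3), ← Measure.map_map m2 m3,
    g.measurePreserving.map_eq, h2, Measure.map_smul, map_add_left_eq_self]

/-- change of variables -/
theorem lint_zm (c : V) {r : ℝ} (hr : 0 < r) (g : V ≃ₗᵢ[ℝ] V) (f : V → ℝ≥0∞) (S : Set V) :
    ∫⁻ y in S, f (zm c r g y) =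
      ENNReal.ofReal ((r ^ 3)⁻¹) * ∫⁻ x in zm c r g '' S, f x := by
  have hE := zm_emb c hr.ne' g
  have h1 : (Measure.map (zm c r g) volume).restrict (zm c r g '' S) =
      Measure.map (zm c r g) ((volume : Measure V).restrict S) := by
    rw [hE.restrict_map, preimage_image_eq _ hE.injective]
  rw [← hE.lintegral_map, ← h1, map_zm c hr g, Measure.restrict_smul, lintegral_smul_measure]
  rfl

/-- invariance of the Hilbert-Schmidt norm -/
theorem nsq_comp {m : ℕ} (L : V →L[ℝ] E m) (g : V ≃ₗᵢ[ℝ] V) :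
    nsq (L.comp (g.toContinuousLinearEquiv : V →L[ℝ] V)) = nsq L := by
  have key : ∀ (b : OrthonormalBasis (Fin 3) ℝ V), ∑ i, ‖L (b i)‖ ^ 2 =
      ∑ j, ‖(ContinuousLinearMap.adjoint L) ((EuclideanSpace.basisFun (Fin m) ℝ) j)‖ ^ 2 := by
    intro b
    have h1 : ∀ i, ‖L (b i)‖ ^ 2 = ∑ j, ‖⟪b i, (ContinuousLinearMap.adjoint L)
        ((EuclideanSpace.basisFun (Fin m) ℝ) j)⟫‖ ^ 2 := by
      intro i
      rw [← (EuclideanSpace.basisFun (Fin m) ℝ).sum_sq_norm_inner_left (L (b i))]
      refine Finset.sum_congr rfl fun j _ => ?_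
      rw [ContinuousLinearMap.adjoint_inner_right]
    rw [Finset.sum_congr rfl fun i _ => h1 i, Finset.sum_comm]
    refine Finset.sum_congr rfl fun j _ => ?_
    exact b.sum_sq_norm_inner_right _
  let b0 : OrthonormalBasis (Fin 3) ℝ V := EuclideanSpace.basisFun (Fin (1 + 2)) ℝ
  have h0 : ∀ i : Fin (1 + 2), b0 i = bv i := by
    intro i
    change (EuclideanSpace.basisFun (Fin (1 + 2)) ℝ) i = bv i
    rw [EuclideanSpace.basisFun_apply]
    rfl
  have k1 := key b0
  have k2 := key (b0.map g)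
  rw [← k1] at k2
  unfold nsq
  calc ∑ i : Fin (1 + 2), ‖(L.comp (g.toContinuousLinearEquiv : V →L[ℝ] V)) (bv i)‖ ^ 2
      = ∑ i : Fin 3, ‖L ((b0.map g) i)‖ ^ 2 := by
        refine Finset.sum_congr rfl fun i _ => ?_
        rw [OrthonormalBasis.map_apply, h0]
        rfl
    _ = ∑ i : Fin 3, ‖L (b0 i)‖ ^ 2 := k2
    _ = ∑ i : Fin (1 + 2), ‖L (bv i)‖ ^ 2 := by
        refine Finset.sum_congr rfl fun i _ => ?_
        rw [h0]

theorem nsq_smul {m : ℕ} (r : ℝ) (L : V →L[ℝ] E m) : nsq (r • L) = r ^ 2 * nsq L := by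
  unfold nsq
  rw [Finset.mul_sum]
  refine Finset.sum_congr rfl fun i _ => ?_
  rw [_root_.smul_apply, norm_smul, mul_pow, Real.norm_eq_abs, sq_abs]

theorem nsq_zG {m : ℕ} (c : V) (r : ℝ) (g : V ≃ₗᵢ[ℝ] V) (G : V → V →L[ℝ] E m) (y : V) :
    nsq (zG c r g G y) = r ^ 2 * nsq (G (zm c r g y)) := by
  unfold zG
  rw [nsq_smul, nsq_comp]

theorem memLp_zG {m : ℕ} (c : V) {r : ℝ} (hr : 0 < r) (g : V ≃ₗᵢ[ℝ] V) (G : V → V →L[ℝ] E m)
    (hG : MemLp G 2 (volume.restrict (ball (0 : V) 2))) (hc : ball c (2 * r) ⊆ ball 0 2) :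
    MemLp (zG c r g G) 2 (volume.restrict (ball (0 : V) 2)) := by
  have hE := zm_emb c hr.ne' g
  have himg : zm c r g '' ball (0 : V) 2 ⊆ ball 0 2 := by
    rw [image_ball c hr g]
    have : zm c r g 0 = c := by
      unfold zm
      rw [map_zero, smul_zero, add_zero]
    rw [this, mul_comm r 2]
    exact hc
  have h1 : Measure.map (zm c r g) ((volume : Measure V).restrict (ball 0 2)) =
      ENNReal.ofReal ((r ^ 3)⁻¹) • (volume : Measure V).restrict (zm c r g '' ball 0 2) := by
    have h2 : (Measure.map (zm c r g) volume).restrict (zm c r g '' ball 0 2) =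
        Measure.map (zm c r g) ((volume : Measure V).restrict (ball 0 2)) := by
      rw [hE.restrict_map, preimage_image_eq _ hE.injective]
    rw [← h2, map_zm c hr g, Measure.restrict_smul]
  have h3 : MemLp G 2 (Measure.map (zm c r g) ((volume : Measure V).restrict (ball 0 2))) := by
    rw [h1]
    exact (hG.mono_measure (Measure.restrict_mono himg le_rfl)).smul_measure ENNReal.ofReal_ne_top
  have h4 : MemLp (G ∘ zm c r g) 2 (volume.restrict (ball (0 : V) 2)) :=
    hE.memLp_map_measure_iff.1 h3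
  have h5 := ((ContinuousLinearMap.compL ℝ V V (E m)).flip
    (g.toContinuousLinearEquiv : V →L[ℝ] V)).comp_memLp' h4
  exact h5.const_smul r

theorem pf_ZMU (hMUF : T_MUF) : T_ZMU := by
  intro m G c r g hG hr hc
  have hE := zm_emb c hr.ne' g
  have hz0 : zm c r g 0 = c := by
    unfold zm
    rw [map_zero, smul_zero, add_zero]
  have himg : ∀ S : Set V, S ⊆ ball 0 2 → zm c r g '' S ⊆ ball 0 2 := by
    intro S hS
    refine (image_mono hS).trans ?_
    rw [image_ball c hr g, hz0, mul_comm r 2]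
    exact hc
  have hzG := memLp_zG c hr g G hG hc
  have hint : ∀ (f : V → ℝ≥0∞) (S : Set V), Measurable f → MeasurableSet S → S ⊆ ball 0 2 →
      ∫⁻ y in S, f (zm c r g y) ∂(mu (zG c r g G)) =
        ENNReal.ofReal r⁻¹ * ∫⁻ x in zm c r g '' S, f x ∂(mu G) := by
    intro f S hf hS hS2
    obtain ⟨-, -, h1, -⟩ := hMUF m (zG c r g G) hzG
    obtain ⟨-, -, h2, -⟩ := hMUF m G hG
    rw [h1 (fun y => f (zm c r g y)) (hf.comp hE.measurable) S hS,
      h2 f hf _ (hE.measurableSet_image.2 hS), inter_eq_left.2 hS2,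
      inter_eq_left.2 (himg S hS2)]
    have h3 : ∀ y, ENNReal.ofReal (nsq (zG c r g G y)) * f (zm c r g y) =
        (fun x => ENNReal.ofReal (r ^ 2) * (ENNReal.ofReal (nsq (G x)) * f x)) (zm c r g y) := by
      intro y
      change _ = ENNReal.ofReal (r ^ 2) * (ENNReal.ofReal (nsq (G (zm c r g y))) * f (zm c r g y))
      rw [nsq_zG, ENNReal.ofReal_mul (by positivity), mul_assoc]
    rw [lintegral_congr h3,
      lint_zm c hr g (fun x => ENNReal.ofReal (r ^ 2) * (ENNReal.ofReal (nsq (G x)) * f x)) S,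
      lintegral_const_mul' _ _ ENNReal.ofReal_ne_top,
      ← mul_assoc, ← ENNReal.ofReal_mul (by positivity)]
    congr 2
    field_simp
  have hmu : ∀ (y : V) (s : ℝ), ball y s ⊆ ball 0 2 →
      mu (zG c r g G) (ball y s) = ENNReal.ofReal r⁻¹ * mu G (ball (zm c r g y) (r * s)) := by
    intro y s hs
    have h1 := hint (fun _ => 1) (ball y s) measurable_const measurableSet_ball hs
    rw [setLIntegral_one, setLIntegral_one, image_ball c hr g] at h1
    exact h1
  refine ⟨hzG, hint, fun f S _ _ => lint_zm c hr g f S, fun y s => image_ball c hr g y s, ?_, ?_⟩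
  · intro y s hs hys
    unfold th Measure.real
    rw [hmu y s hys, ENNReal.toReal_mul, ENNReal.toReal_ofReal (by positivity)]
    field_simp
  · intro y t ht hyt
    have hdl : ∀ a T w : V, dl (zm c r g a) (g T) (zm c r g w) = r ^ 2 * dl a T w := by
      intro a T w
      unfold dl
      rw [zm_sub, norm_smul, real_inner_smul_left, g.norm_map, g.inner_map_map,
        Real.norm_of_nonneg hr.le]
      ring
    have hdm : ∀ a T : V, Measurable (fun x => ENNReal.ofReal (dl a T x)) := by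
      intro a T
      have : Continuous (fun x => dl a T x) := by
        unfold dl
        fun_prop
      exact this.measurable.ennreal_ofReal
    have hval : ∀ a T : V, ENNReal.ofReal ((t ^ 3)⁻¹) *
        ∫⁻ w in ball y (8 * t), ENNReal.ofReal (dl a T w) ∂(mu (zG c r g G)) =
        ENNReal.ofReal (((r * t) ^ 3)⁻¹) *
        ∫⁻ x in ball (zm c r g y) (8 * (r * t)),
          ENNReal.ofReal (dl (zm c r g a) (g T) x) ∂(mu G) := by
      intro a T
      have h1 : ∀ w, ENNReal.ofReal (dl a T w) = ENNReal.ofReal ((r ^ 2)⁻¹) *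
          (fun x => ENNReal.ofReal (dl (zm c r g a) (g T) x)) (zm c r g w) := by
        intro w
        change _ = ENNReal.ofReal ((r ^ 2)⁻¹) * ENNReal.ofReal (dl (zm c r g a) (g T) (zm c r g w))
        rw [hdl, ← ENNReal.ofReal_mul (by positivity)]
        congr 1
        field_simp
      rw [lintegral_congr h1, lintegral_const_mul' _ _ ENNReal.ofReal_ne_top,
        hint _ _ (hdm _ _) measurableSet_ball hyt, image_ball c hr g,
        show r * (8 * t) = 8 * (r * t) by ring, ← mul_assoc, ← mul_assoc,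
        ← ENNReal.ofReal_mul (by positivity), ← ENNReal.ofReal_mul (by positivity)]
      congr 2
      field_simp
    unfold bt
    refine Equiv.iInf_congr (zh c r hr.ne' g).toEquiv fun a => ?_
    refine (Equiv.iInf_congr g.toLinearEquiv.toEquiv fun T => ?_).symm
    refine iInf_congr_Prop ?_ fun _ => ?_
    · change ‖g T‖ = 1 ↔ ‖T‖ = 1
      rw [g.norm_map]
    · exact (hval a T).symm

end

end Pool.Agent.H40.D3
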